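import Pool.Agent.H20.Thue

namespace Pool.Agent.Results.MP_35dbbb_co.Cycle7
open Pool.Agent.H20

theorem result : ∃ (G : SimpleGraph (Fin 7)) (H : SimpleGraph (Fin 2)),
    thueNum (lexProduct G H) < thueNum H + (thueNum G - 1) * Fintype.card (Fin 2) := by
  refine ⟨SimpleGraph.cycleGraph 7, ⊥, ?_⟩
  have h1 := Thue.prod6
  have h2 := Thue.one
  have h3 := Thue.four
  rw [Fintype.card_fin]
  omega

end Pool.Agent.Results.MP_35dbbb_co.Cycle7
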